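import Pool.Agent.Helper36.OL.KFREE

/-!
# Blueprint OL, part FPV
-/

set_option autoImplicit false

namespace Pool.Agent.Helper36.OL

open Pool.Agent.Helper40.OL

/-- The stabiliser of the coset of `y` is isomorphic to `K n`. -/
theorem stab_equiv (r : ℕ) (h : HY r) (n : ℕ) (y : E) (hy : y ∈ Y r n)
    (hconj : ∀ k ∈ K n, y * k * y⁻¹ ∈ Gam r) (v : VY r n) (hv : v.1 = (y : E ⧸ K n)) :
    Nonempty (@MulAction.stabilizer (Gam r) (VY r n) _ (VYact h n) v ≃* K n) := by
  letI := VYact h n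
  have key : ∀ g : Gam r, g ∈ MulAction.stabilizer (Gam r) v ↔ y⁻¹ * (g : E) * y ∈ K n := by
    intro g
    rw [MulAction.mem_stabilizer_iff]
    have h1 : (g • v).1 = (((g : E) * y : E) : E ⧸ K n) := by
      show (g : E) • v.1 = _
      rw [hv]; rfl
    constructor
    · intro h2
      have h3 : ((y : E) : E ⧸ K n) = (((g : E) * y : E) : E ⧸ K n) := by
        rw [← h1, h2, hv]
      rw [QuotientGroup.eq] at h3
      rwa [mul_assoc]
    · intro h2
      apply Subtype.ext
      rw [h1, hv, eq_comm, QuotientGroup.eq, ← mul_assoc]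
      exact h2
  refine ⟨?_⟩
  exact
    { toFun := fun g => ⟨y⁻¹ * ((g : Gam r) : E) * y, (key g).1 g.2⟩
      invFun := fun k => ⟨⟨y * (k : E) * y⁻¹, hconj k k.2⟩, (key _).2 (by
        have : y⁻¹ * (y * (k : E) * y⁻¹) * y = k := by group
        rw [this]; exact k.2)⟩
      left_inv := by
        intro g
        apply Subtype.ext
        apply Subtype.ext
        show y * (y⁻¹ * ((g : Gam r) : E) * y) * y⁻¹ = _
        group
      right_inv := by
        intro k
        apply Subtype.ext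
        show y⁻¹ * (y * (k : E) * y⁻¹) * y = _
        group
      map_mul' := by
        intro g g'
        apply Subtype.ext
        show y⁻¹ * (((g : Gam r) : E) * ((g' : Gam r) : E)) * y =
          (y⁻¹ * ((g : Gam r) : E) * y) * (y⁻¹ * ((g' : Gam r) : E) * y)
        group }

/-- Part FPV. -/
theorem fpv_thm (hY : S_Y) (hO : S_ORB) : S_FPV := by
  intro r h hr n m
  obtain ⟨-, -, -, -, -, hquot, -, hconj, hmono, -⟩ := hY r hr
  letI := VYact h n
  show FPn (R := MonoidAlgebra ℤ (Gam r)) m (PM (Gam r) (VY r n))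
  refine hO (Gam r) (VY r n) ?_ ?_ m
  · -- representatives
    choose Yr hYr hYv using fun v : VY r n => v.2
    choose L hL hLf using fun (v : VY r n) (i : Fin (r + 1)) =>
      (hYr v).2 (i : ℕ) (Nat.lt_succ_iff.1 i.2)
    let F : MulAction.orbitRel.Quotient (Gam r) (VY r n) → (Fin (r + 1) → Fin (n + 1)) :=
      fun q i => ⟨L (Quotient.out q) i, Nat.lt_succ_iff.2 (hL _ i)⟩
    apply Finite.of_injective F
    intro q q' hqq
    have h1 : Yr (Quotient.out q') * (Yr (Quotient.out q))⁻¹ ∈ Gam r := by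
      apply hquot n _ (hYr _) _ (hYr _)
      intro i hi
      refine ⟨L (Quotient.out q) ⟨i, Nat.lt_succ_iff.2 hi⟩, hLf _ ⟨i, Nat.lt_succ_iff.2 hi⟩, ?_⟩
      have h2 := congrArg Fin.val (congrFun hqq ⟨i, Nat.lt_succ_iff.2 hi⟩)
      simp only [F] at h2
      rw [h2]
      exact hLf _ ⟨i, Nat.lt_succ_iff.2 hi⟩
    rw [← Quotient.out_eq q, ← Quotient.out_eq q']
    apply Eq.symm
    apply Quotient.sound
    show (MulAction.orbitRel (Gam r) (VY r n)).r _ _
    refine (MulAction.orbitRel_apply).2 ?_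
    refine ⟨⟨_, h1⟩, ?_⟩
    apply Subtype.ext
    show (Yr (Quotient.out q') * (Yr (Quotient.out q))⁻¹ : E) • (Quotient.out q).1 =
      (Quotient.out q').1
    rw [← hYv (Quotient.out q), ← hYv (Quotient.out q')]
    show ((Yr (Quotient.out q') * (Yr (Quotient.out q))⁻¹ * Yr (Quotient.out q) : E) : E ⧸ K n) = _
    rw [inv_mul_cancel_right]
  · intro v
    obtain ⟨y, hy, hv⟩ := v.2
    obtain ⟨e⟩ := stab_equiv r h n y hy (hconj n y hy) v hv.symm
    obtain ⟨d, ⟨e'⟩⟩ := kfree_thm n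
    exact ⟨d, ⟨e.trans e'⟩⟩

end Pool.Agent.Helper36.OL
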