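import Pool.Agent.Helper40.OL.Spec

/-!
# Blueprint OL, parts KFREE, LABEL, FPV
-/

set_option autoImplicit false

namespace Pool.Agent.Helper36.OL

open Pool.Agent.Helper40.OL

theorem mem_K {n : ℕ} {g : E} :
    g ∈ K n ↔ g.f = 1 ∧ (∀ s, g.d s = 0) ∧ ∀ s t, g.m s t ≠ 0 → NatLe n s ∧ NatLe n t := Iff.rfl

/-- the labels of an element of `K n` -/
noncomputable def labHom (n : ℕ) : K n →* Multiplicative (Fin (n + 1) × Fin (n + 1) → ℤ) where
  toFun k := Multiplicative.ofAdd fun p => (k : E).m ((p.1 : ℕ) : ℝ) ((p.2 : ℕ) : ℝ)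
  map_one' := rfl
  map_mul' a b := by
    obtain ⟨a, ha, ha', ha''⟩ := a
    obtain ⟨b, hb, hb', hb''⟩ := b
    apply Multiplicative.toAdd.injective
    funext p
    simp [toAdd_mul, ha, ha']

theorem labHom_apply {n : ℕ} (k : K n) (p : Fin (n + 1) × Fin (n + 1)) :
    Multiplicative.toAdd (labHom n k) p = (k : E).m ((p.1 : ℕ) : ℝ) ((p.2 : ℕ) : ℝ) := rfl

theorem kap_apply (l : ℕ × ℕ → ℤ) (a b : ℕ) : (kap l).m a b = l (a, b) := by
  simp [kap]

theorem kap_ne {l : ℕ × ℕ → ℤ} {s t : ℝ} (h : (kap l).m s t ≠ 0) :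
    ∃ a b : ℕ, s = a ∧ t = b ∧ l (a, b) ≠ 0 := by
  simp only [kap] at h
  split_ifs at h with h1
  · exact ⟨⌊s⌋₊, ⌊t⌋₊, h1.1, h1.2, h⟩
  · exact absurd rfl h

theorem kap_mem {N : ℕ} {l : ℕ × ℕ → ℤ} (hl : ∀ y, y ∉ TT N → l y = 0) : kap l ∈ K N := by
  refine ⟨rfl, fun _ => rfl, fun s t h => ?_⟩
  obtain ⟨a, b, rfl, rfl, h1⟩ := kap_ne h
  have h2 : (a, b) ∈ TT N := by
    by_contra h3
    exact h1 (hl _ h3)
  simp only [TT, Finset.mem_product, Finset.mem_range] at h2
  exact ⟨⟨a, by omega, rfl⟩, ⟨b, by omega, rfl⟩⟩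

/-- Part KFREE. -/
theorem kfree_thm : S_KFREE := by
  intro n
  refine ⟨(n + 1) * (n + 1), ⟨?_⟩⟩
  have hbij : Function.Bijective (labHom n) := by
    constructor
    · intro a b hab
      have h1 : ∀ i j : ℕ, i ≤ n → j ≤ n → (a : E).m i j = (b : E).m i j := by
        intro i j hi hj
        have := congrFun (congrArg Multiplicative.toAdd hab)
          (⟨i, by omega⟩, ⟨j, by omega⟩)
        simpa only [labHom_apply] using this
      apply Subtype.ext
      obtain ⟨a, ha, ha', ha''⟩ := a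
      obtain ⟨b, hb, hb', hb''⟩ := b
      simp only at h1 ⊢
      refine E.ext ?_ ?_ ?_
      · rw [ha, hb]
      · funext s; rw [ha', hb']
      · funext s t
        by_cases hs : NatLe n s ∧ NatLe n t
        · obtain ⟨⟨i, hi, rfl⟩, ⟨j, hj, rfl⟩⟩ := hs
          exact h1 i j hi hj
        · have h2 : a.m s t = 0 := by
            by_contra h3; exact hs (ha'' s t h3)
          have h3 : b.m s t = 0 := by
            by_contra h3; exact hs (hb'' s t h3)
          rw [h2, h3]
    · intro l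
      let l' : ℕ × ℕ → ℤ := fun p => if h : p.1 < n + 1 ∧ p.2 < n + 1 then
        Multiplicative.toAdd l (⟨p.1, h.1⟩, ⟨p.2, h.2⟩) else 0
      have hl' : ∀ y, y ∉ TT n → l' y = 0 := by
        intro y hy
        apply dif_neg
        simpa only [TT, Finset.mem_product, Finset.mem_range] using hy
      refine ⟨⟨kap l', kap_mem hl'⟩, ?_⟩
      apply Multiplicative.toAdd.injective
      funext p
      rw [labHom_apply]
      simp only [kap_apply]
      exact dif_pos ⟨p.1.2, p.2.2⟩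
  let e1 : K n ≃* Multiplicative (Fin (n + 1) × Fin (n + 1) → ℤ) := MulEquiv.ofBijective _ hbij
  let e2 : (Fin (n + 1) × Fin (n + 1) → ℤ) ≃+ (Fin ((n + 1) * (n + 1)) → ℤ) :=
    { Equiv.arrowCongr finProdFinEquiv (Equiv.refl ℤ) with
      map_add' := fun _ _ => rfl }
  exact e1.trans (AddEquiv.toMultiplicative e2)

/-- Conjugation of labels. -/
theorem conj_eq (g κ : E) (h1 : κ.f = 1) (h2 : ∀ s, κ.d s = 0) :
    (g * κ * g⁻¹).f = 1 ∧ (∀ s, (g * κ * g⁻¹).d s = 0) ∧
      ∀ s t, (g * κ * g⁻¹).m s t = κ.m (g.f⁻¹ s) (g.f⁻¹ t) := by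
  refine ⟨?_, fun s => ?_, fun s t => ?_⟩
  · simp [h1]
  · simp [h1, h2]
  · simp [h1, h2]
    ring

theorem inv_ap (f : Equiv.Perm ℝ) (x : ℝ) : f⁻¹ (f x) = x := f.symm_apply_apply x

theorem ap_inv (f : Equiv.Perm ℝ) (x : ℝ) : f (f⁻¹ x) = x := f.apply_symm_apply x

/-- Part LABEL. -/
theorem label_thm (hth : S_THETA) : S_LABEL := by
  refine ⟨fun N k => ⟨fun hk => ?_, ?_⟩, ?_⟩
  · refine ⟨fun p => k.m p.1 p.2, fun y hy => ?_, ?_⟩
    · by_contra h
      obtain ⟨⟨a, ha, ha'⟩, ⟨b, hb, hb'⟩⟩ := hk.2.2 _ _ h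
      apply hy
      simp only [TT, Finset.mem_product, Finset.mem_range]
      have h1 : y.1 = a := by exact_mod_cast ha'
      have h2 : y.2 = b := by exact_mod_cast hb'
      omega
    · refine E.ext hk.1 (funext fun s => hk.2.1 s) (funext fun s => funext fun t => ?_)
      simp only [kap]
      split_ifs with h
      · rw [← h.1, ← h.2]
      · by_contra h3
        obtain ⟨⟨a, ha, rfl⟩, ⟨b, hb, rfl⟩⟩ := hk.2.2 _ _ h3
        apply h
        simp
  · rintro ⟨l, hl, rfl⟩
    exact kap_mem hl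
  · intro N R l l' hR hRN hl hl'
    obtain ⟨hlen, -, hθ1, hθ2⟩ := hth.1 N R hR hRN
    have hm : ∀ s t, ((kap l)⁻¹ * kap l').m s t = (kap l').m s t - (kap l).m s t := by
      intro s t
      simp only [E.mul_m, E.inv_m, E.inv_f, E.inv_d]
      simp [kap]
      ring
    have hg : (kap l * (theta R)⁻¹)⁻¹ * (kap l' * (theta R)⁻¹) =
        theta R * ((kap l)⁻¹ * kap l') * (theta R)⁻¹ := by group
    obtain ⟨c1, c2, c3⟩ := conj_eq (theta R) ((kap l)⁻¹ * kap l') (by simp [kap])
      (fun s => by simp [kap])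
    rw [hg, mem_K]
    constructor
    · rintro ⟨-, -, h3⟩
      funext y
      by_cases hy : y.1 ∈ R ∨ y.2 ∈ R
      · simp only [res, if_pos hy]
        by_contra hne
        have h4 := h3 ((theta R).f y.1) ((theta R).f y.2) (by
          rw [c3, hm, inv_ap, inv_ap, kap_apply, kap_apply]
          intro h5
          apply hne
          have : (y.1, y.2) = y := rfl
          rw [this] at h5
          omega)
        obtain ⟨⟨a, ha, ha'⟩, ⟨b, hb, hb'⟩⟩ := h4
        rcases hy with hy | hy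
        · exact hθ1 _ hy a ha'
        · exact hθ1 _ hy b hb'
      · simp only [res, if_neg hy]
    · intro hres
      refine ⟨c1, c2, fun s t hst => ?_⟩
      rw [c3, hm] at hst
      obtain ⟨a, b, ha, hb, hab⟩ : ∃ a b : ℕ, (theta R).f⁻¹ s = a ∧ (theta R).f⁻¹ t = b ∧
          l' (a, b) - l (a, b) ≠ 0 := by
        by_cases h1 : (kap l').m ((theta R).f⁻¹ s) ((theta R).f⁻¹ t) = 0
        · have h2 : (kap l).m ((theta R).f⁻¹ s) ((theta R).f⁻¹ t) ≠ 0 := by
            intro h2; rw [h1, h2] at hst; exact hst (by simp)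
          obtain ⟨a, b, ha, hb, -⟩ := kap_ne h2
          refine ⟨a, b, ha, hb, ?_⟩
          rw [ha, hb, kap_apply, kap_apply] at hst
          exact hst
        · obtain ⟨a, b, ha, hb, -⟩ := kap_ne h1
          refine ⟨a, b, ha, hb, ?_⟩
          rw [ha, hb, kap_apply, kap_apply] at hst
          exact hst
      have hnR : ¬ (a ∈ R ∨ b ∈ R) := by
        intro h
        have h1 := congrFun hres (a, b)
        simp only [res, if_pos h] at h1
        exact hab (by rw [h1]; simp)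
      have hT : (a, b) ∈ TT N := by
        by_contra h3
        exact hab (by rw [hl _ h3, hl' _ h3]; simp)
      simp only [TT, Finset.mem_product, Finset.mem_range] at hT
      push Not at hnR
      have hs : s = (theta R).f a := by rw [← ha, ap_inv]
      have ht : t = (theta R).f b := by rw [← hb, ap_inv]
      rw [hs, ht]
      exact ⟨hθ2 a (by omega) hnR.1, hθ2 b (by omega) hnR.2⟩

end Pool.Agent.Helper36.OL
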